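import Pool.Agent.P.MP_1672e2_an.Main

set_option autoImplicit false

namespace Pool.Agent.Results.MP_1672e2_an.Dominated

open MeasureTheory Bundle Pool.Agent.P.MP_1672e2_an
open scoped Manifold ContDiff

theorem result {E : Type*} [NormedAddCommGroup E] [NormedSpace ℝ E] [FiniteDimensional ℝ E]
    (hE : Module.finrank ℝ E = 2) {M : Type*} [TopologicalSpace M] [T2Space M] [CompactSpace M]
    [ChartedSpace E M] [IsManifold 𝓘(ℝ, E) ∞ M]
    [RiemannianBundle fun x : M => TangentSpace 𝓘(ℝ, E) x]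
    [IsContinuousRiemannianBundle E fun x : M => TangentSpace 𝓘(ℝ, E) x]
    [MeasurableSpace M] [BorelSpace M] (f : Diffeomorph 𝓘(ℝ, E) 𝓘(ℝ, E) M M 1) :
    MarkovModel f fun μ => μ {x | ¬ Dominated E f.toEquiv x} = 0 :=
  main hE f

end Pool.Agent.Results.MP_1672e2_an.Dominated
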