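import Pool.Agent.P.MP_1672e2_an.Cb.Main

set_option autoImplicit false

open MeasureTheory
open scoped Manifold
open Pool.Agent.P.MP_1672e2_an.Cq

theorem Pool.Agent.Results.MP_1672e2_an.ManyMaximal.result :
    ∃ (M : Type) (_ : MetricSpace M) (_ : ChartedSpace (EuclideanSpace ℝ (Fin 2)) M)
      (_ : MeasurableSpace M) (f : M → M),
      CompactSpace M ∧ ConnectedSpace M ∧ IsManifold (𝓡 2) 1 M ∧ BorelSpace M ∧
      (∃ F : Diffeomorph (𝓡 2) (𝓡 2) M M 1, ⇑F = f) ∧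
      0 < Dynamics.coverEntropy f Set.univ ∧
      ¬ Set.Countable {μ : Measure M | PeriodMaximal f μ ∧
        ∀ ν : Measure M, IsProbabilityMeasure ν → Ergodic f ν → ksEntropy f ν ≤ ksEntropy f μ} := by
  obtain ⟨M, i1, i2, i3, i4, i5, i6, i7, f, h1, h2⟩ := Pool.Agent.P.MP_1672e2_an.Cq.Un.main
  refine ⟨M, i1, i4, i6, f, i2, i3, i5, i7, ⟨f, rfl⟩, h1, fun h => h2 (h.mono fun μ hμ => ?_)⟩
  exact ⟨hμ.1, hμ.2.2⟩
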